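import Pool.Agent.H48.CN.Descent
import Mathlib.NumberTheory.Height.EllipticCurve
import Mathlib.NumberTheory.Height.NumberField

/-!
# Quadratic twists `N y^2 = x (x^2 + A x + B)` and the height of the `x`-coordinate

The twist by `N` of `y^2 = x (x^2 + A x + B)` is realised as the Weierstrass curve
`TW A B N : Y^2 = X^3 + A N X^2 + B N^2 X`; a solution `(x, y)` of `N y^2 = x (x^2 + A x + B)` gives
the point `mk x y = (N x, N^2 y)`. The height `hh N` of a point is the height of `x`; all its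
properties are uniform in `N`.
-/

namespace H79.Tw

open WeierstrassCurve WeierstrassCurve.Affine H48.CN

/-- The Weierstrass curve `Y^2 = X^3 + A N X^2 + B N^2 X`. -/
abbrev TW (A B N : ℚ) : WeierstrassCurve.Affine ℚ := Wc (A * N) (B * N ^ 2) 0

/-- The height of the normalised `x`-coordinate of a point (`0` at infinity). -/
noncomputable def hh {W : WeierstrassCurve.Affine ℚ} (N : ℚ) : W.Point → ℝ
  | .zero => 0
  | .some x _ _ => Height.logHeight₁ (x / N)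

theorem hh_zero {W : WeierstrassCurve.Affine ℚ} (N : ℚ) : hh N (0 : W.Point) = 0 := rfl

theorem hh_some {W : WeierstrassCurve.Affine ℚ} (N : ℚ) {x y : ℚ} (h : W.Nonsingular x y) :
    hh N (Point.some x y h) = Height.logHeight₁ (x / N) := rfl

theorem hh_neg {W : WeierstrassCurve.Affine ℚ} (N : ℚ) (P : W.Point) : hh N (-P) = hh N P := by
  rcases P with _ | ⟨x, y, h⟩
  · rfl
  · rw [Point.neg_some, hh_some, hh_some]

variable {A B N : ℚ}

theorem nonsing (hE : B * (A ^ 2 - 4 * B) ≠ 0) (hN : N ≠ 0) {x y : ℚ}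
    (e : N * y ^ 2 = x * (x ^ 2 + A * x + B)) : (TW A B N).Nonsingular (N * x) (N ^ 2 * y) := by
  apply nonsing_of
  · linear_combination N ^ 3 * e
  · by_contra hcon
    push Not at hcon
    obtain ⟨h1, h2⟩ := hcon
    have hy : y = 0 := by
      rcases mul_eq_zero.1 h1 with h | h
      · norm_num at h
      · rcases mul_eq_zero.1 h with h | h
        · exact absurd (pow_eq_zero_iff two_ne_zero |>.1 h) hN
        · exact h
    have h3 : 3 * x ^ 2 + 2 * A * x + B = 0 := by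
      have : N ^ 2 * (3 * x ^ 2 + 2 * A * x + B) = 0 := by linear_combination h2
      rcases mul_eq_zero.1 this with h | h
      · exact absurd (pow_eq_zero_iff two_ne_zero |>.1 h) hN
      · exact h
    have h4 : x * (x ^ 2 + A * x + B) = 0 := by rw [← e, hy]; ring
    apply hE
    rcases mul_eq_zero.1 h4 with h | h
    · rw [h] at h3
      have : B = 0 := by linear_combination h3
      rw [this]; ring
    · have h5 : 2 * x + A = 0 ∨ x = 0 := by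
        have : x * (2 * x + A) = 0 := by linear_combination h3 - h
        rcases mul_eq_zero.1 this with h | h
        · exact Or.inr h
        · exact Or.inl h
      rcases h5 with h5 | h5
      · have : A ^ 2 - 4 * B = 0 := by
          linear_combination (-4 : ℚ) * h + (2 * x + A) * h5
        rw [this]; ring
      · rw [h5] at h3
        have : B = 0 := by linear_combination h3
        rw [this]; ring

/-- The point with normalised coordinates `(x, y)`. -/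
noncomputable def mk (hE : B * (A ^ 2 - 4 * B) ≠ 0) (hN : N ≠ 0) (x y : ℚ)
    (e : N * y ^ 2 = x * (x ^ 2 + A * x + B)) : (TW A B N).Point :=
  Point.some (N * x) (N ^ 2 * y) (nonsing hE hN e)

variable {hE : B * (A ^ 2 - 4 * B) ≠ 0} {hN : N ≠ 0}

theorem hh_mk {x y : ℚ} (e : N * y ^ 2 = x * (x ^ 2 + A * x + B)) :
    hh N (mk hE hN x y e) = Height.logHeight₁ x := by
  unfold mk
  rw [hh_some, mul_div_cancel_left₀ _ hN]

theorem exists_mk (hE : B * (A ^ 2 - 4 * B) ≠ 0) (hN : N ≠ 0) (P : (TW A B N).Point) :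
    P = 0 ∨ ∃ (x y : ℚ) (e : N * y ^ 2 = x * (x ^ 2 + A * x + B)), P = mk hE hN x y e := by
  rcases P with _ | ⟨X, Y, h⟩
  · exact Or.inl rfl
  · right
    have e := eqn_iff.1 h.1
    have hN2 : N ^ 2 ≠ 0 := pow_ne_zero 2 hN
    have hx : N * (X / N) = X := by field_simp
    have hy : N ^ 2 * (Y / N ^ 2) = Y := by field_simp
    have hN3 : N ^ 3 ≠ 0 := pow_ne_zero 3 hN
    refine ⟨X / N, Y / N ^ 2, ?_, ?_⟩
    · apply mul_left_cancel₀ hN3
      calc N ^ 3 * (N * (Y / N ^ 2) ^ 2) = (N ^ 2 * (Y / N ^ 2)) ^ 2 := by ring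
        _ = Y ^ 2 := by rw [hy]
        _ = X ^ 3 + A * N * X ^ 2 + B * N ^ 2 * X + 0 := e
        _ = (N * (X / N)) ^ 3 + A * N * (N * (X / N)) ^ 2 + B * N ^ 2 * (N * (X / N)) + 0 := by
          rw [hx]
        _ = N ^ 3 * (X / N * ((X / N) ^ 2 + A * (X / N) + B)) := by ring
    · unfold mk
      simp only [hx, hy]

theorem mk_inj {x y x' y' : ℚ} {e : N * y ^ 2 = x * (x ^ 2 + A * x + B)}
    {e' : N * y' ^ 2 = x' * (x' ^ 2 + A * x' + B)} :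
    mk hE hN x y e = mk hE hN x' y' e' ↔ x = x' ∧ y = y' := by
  unfold mk
  rw [Point.some.injEq]
  constructor
  · rintro ⟨h1, h2⟩
    exact ⟨mul_left_cancel₀ hN h1, mul_left_cancel₀ (pow_ne_zero 2 hN) h2⟩
  · rintro ⟨rfl, rfl⟩
    exact ⟨rfl, rfl⟩

theorem mk_ne_zero {x y : ℚ} {e : N * y ^ 2 = x * (x ^ 2 + A * x + B)} :
    mk hE hN x y e ≠ 0 := by
  unfold mk
  exact Point.some_ne_zero _

theorem neg_mk {x y : ℚ} (e : N * y ^ 2 = x * (x ^ 2 + A * x + B)) :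
    -mk hE hN x y e = mk hE hN x (-y) (by rw [neg_sq]; exact e) := by
  unfold mk
  rw [Point.neg_some]
  congr 1
  rw [negY_eq]; ring

theorem mk_add_neg {x y y' : ℚ} (e : N * y ^ 2 = x * (x ^ 2 + A * x + B))
    (e' : N * y' ^ 2 = x * (x ^ 2 + A * x + B)) (h : y = -y') :
    mk hE hN x y e + mk hE hN x y' e' = 0 := by
  unfold mk
  exact Point.add_of_Y_eq rfl (by rw [negY_eq, h]; ring)

/-- The sum of two points which are not opposite. -/
theorem mk_add {x₁ y₁ x₂ y₂ : ℚ} (e₁ : N * y₁ ^ 2 = x₁ * (x₁ ^ 2 + A * x₁ + B))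
    (e₂ : N * y₂ ^ 2 = x₂ * (x₂ ^ 2 + A * x₂ + B)) (h : ¬(x₁ = x₂ ∧ y₁ = -y₂)) :
    ∃ (l x₃ y₃ : ℚ) (e₃ : N * y₃ ^ 2 = x₃ * (x₃ ^ 2 + A * x₃ + B)),
      mk hE hN x₁ y₁ e₁ + mk hE hN x₂ y₂ e₂ = mk hE hN x₃ y₃ e₃ ∧
      l * (x₁ - x₂) = y₁ - y₂ ∧
      N * l * (y₁ + y₂) = x₁ ^ 2 + x₁ * x₂ + x₂ ^ 2 + A * (x₁ + x₂) + B ∧
      x₃ = N * l ^ 2 - A - x₁ - x₂ ∧ y₃ = -(y₁ + l * (x₃ - x₁)) := by
  have hN2 : N ^ 2 ≠ 0 := pow_ne_zero 2 hN
  have hN3 : N ^ 3 ≠ 0 := pow_ne_zero 3 hN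
  have h' : ¬(N * x₁ = N * x₂ ∧ N ^ 2 * y₁ = -(N ^ 2 * y₂)) := by
    rintro ⟨h1, h2⟩
    apply h
    refine ⟨mul_left_cancel₀ hN h1, mul_left_cancel₀ hN2 ?_⟩
    rw [h2]; ring
  obtain ⟨L, X, Y, hXY, hs, r1, r2, r3, r4⟩ := add_rel (nonsing hE hN e₁) (nonsing hE hN e₂) h'
  have hl : N * (L / N) = L := by field_simp
  obtain ⟨l, rfl⟩ : ∃ l, L = N * l := ⟨L / N, hl.symm⟩
  have hX : X = N * (N * l ^ 2 - A - x₁ - x₂) := by rw [r3]; ring
  have hY : Y = N ^ 2 * (-(y₁ + l * ((N * l ^ 2 - A - x₁ - x₂) - x₁))) := by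
    rw [r4, hX]; ring
  subst hX
  subst hY
  have e3 : N * (-(y₁ + l * ((N * l ^ 2 - A - x₁ - x₂) - x₁))) ^ 2 =
      (N * l ^ 2 - A - x₁ - x₂) * ((N * l ^ 2 - A - x₁ - x₂) ^ 2 +
        A * (N * l ^ 2 - A - x₁ - x₂) + B) := by
    have := eqn_iff.1 hXY.1
    apply mul_left_cancel₀ hN3
    linear_combination this
  refine ⟨l, _, _, e3, ?_, ?_, ?_, rfl, rfl⟩
  · exact hs
  · apply mul_left_cancel₀ hN2
    linear_combination r1
  · apply mul_left_cancel₀ hN2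
    linear_combination r2

/-- The sum of two points with different `x`-coordinates. -/
theorem mk_add_of_ne {x₁ y₁ x₂ y₂ : ℚ} (e₁ : N * y₁ ^ 2 = x₁ * (x₁ ^ 2 + A * x₁ + B))
    (e₂ : N * y₂ ^ 2 = x₂ * (x₂ ^ 2 + A * x₂ + B)) (h : x₁ ≠ x₂) :
    ∃ (y₃ : ℚ) (e₃ : N * y₃ ^ 2 = (N * ((y₁ - y₂) / (x₁ - x₂)) ^ 2 - A - x₁ - x₂) *
        ((N * ((y₁ - y₂) / (x₁ - x₂)) ^ 2 - A - x₁ - x₂) ^ 2 +
          A * (N * ((y₁ - y₂) / (x₁ - x₂)) ^ 2 - A - x₁ - x₂) + B)),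
      mk hE hN x₁ y₁ e₁ + mk hE hN x₂ y₂ e₂ =
        mk hE hN (N * ((y₁ - y₂) / (x₁ - x₂)) ^ 2 - A - x₁ - x₂) y₃ e₃ := by
  obtain ⟨l, x₃, y₃, e₃, hs, r1, -, r3, -⟩ := mk_add (hE := hE) (hN := hN) e₁ e₂
    (fun hh => h hh.1)
  have hl : l = (y₁ - y₂) / (x₁ - x₂) := by
    rw [eq_div_iff (sub_ne_zero.2 h)]; exact r1
  subst hl
  subst r3
  exact ⟨y₃, e₃, hs⟩

/-- The height of a sum of two points with different `x`-coordinates. -/
theorem hh_add_of_ne {x₁ y₁ x₂ y₂ : ℚ} (e₁ : N * y₁ ^ 2 = x₁ * (x₁ ^ 2 + A * x₁ + B))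
    (e₂ : N * y₂ ^ 2 = x₂ * (x₂ ^ 2 + A * x₂ + B)) (h : x₁ ≠ x₂) :
    hh N (mk hE hN x₁ y₁ e₁ + mk hE hN x₂ y₂ e₂) =
      Height.logHeight₁ (N * ((y₁ - y₂) / (x₁ - x₂)) ^ 2 - A - x₁ - x₂) := by
  obtain ⟨y₃, e₃, hs⟩ := mk_add_of_ne (hE := hE) (hN := hN) e₁ e₂ h
  rw [hs, hh_mk]

/-- The height of a difference of two points with different `x`-coordinates. -/
theorem hh_sub_of_ne {x₁ y₁ x₂ y₂ : ℚ} (e₁ : N * y₁ ^ 2 = x₁ * (x₁ ^ 2 + A * x₁ + B))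
    (e₂ : N * y₂ ^ 2 = x₂ * (x₂ ^ 2 + A * x₂ + B)) (h : x₁ ≠ x₂) :
    hh N (mk hE hN x₁ y₁ e₁ - mk hE hN x₂ y₂ e₂) =
      Height.logHeight₁ (N * ((y₁ + y₂) / (x₁ - x₂)) ^ 2 - A - x₁ - x₂) := by
  rw [sub_eq_add_neg, neg_mk, hh_add_of_ne _ _ h, sub_neg_eq_add]

end H79.Tw
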