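import Pool.Agent.helper79.Tw.Final3

/-!
# Infinitely many twists of rank at least three: all curves with full rational 2-torsion
-/

namespace H79.Tw

open WeierstrassCurve WeierstrassCurve.Affine H48.CN Height Iface

/-- The curve `Y^2 = (X - D e₁) (X - D e₂) (X - D e₃)`. -/
def Wt (e₁ e₂ e₃ D : ℚ) : WeierstrassCurve.Affine ℚ :=
  Wc (-(D * (e₁ + e₂ + e₃))) (D ^ 2 * (e₁ * e₂ + e₁ * e₃ + e₂ * e₃)) (-(D ^ 3 * (e₁ * e₂ * e₃)))

theorem Wt_swap12 (e₁ e₂ e₃ : ℚ) : Wt e₁ e₂ e₃ = Wt e₂ e₁ e₃ := by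
  funext D
  unfold Wt
  congr 1 <;> ring

theorem Wt_swap23 (e₁ e₂ e₃ : ℚ) : Wt e₁ e₂ e₃ = Wt e₁ e₃ e₂ := by
  funext D
  unfold Wt
  congr 1 <;> ring

theorem leg_infinite {l : ℚ} (h0 : 0 < l) (h1 : l < 1) (h2 : l ≠ 1 / 2) : (RS 3 l).Infinite := by
  have hn : 0 < l.num := Rat.num_pos.2 h0
  have hlt : l.num < l.den := by
    have h3 : (l.num : ℚ) / l.den < 1 := by rw [Rat.num_div_den]; exact h1
    rw [div_lt_one (by exact_mod_cast l.den_pos)] at h3
    exact_mod_cast h3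
  obtain ⟨a, ha⟩ : ∃ a : ℕ, l.num = a := ⟨l.num.natAbs, (Int.natAbs_of_nonneg hn.le).symm⟩
  rw [ha] at hlt
  have hlt' : a < l.den := by exact_mod_cast hlt
  obtain ⟨c, hc⟩ : ∃ c : ℕ, l.den = a + c := ⟨l.den - a, by omega⟩
  have hcop : a.Coprime (a + c) := by
    have := l.reduced
    rw [ha, hc] at this
    simpa using this
  have hl : l = (a : ℚ) / (a + c) := by
    conv_lhs => rw [← Rat.num_div_den l]
    rw [ha, hc]; push_cast; rfl
  rw [hl]
  refine frac_infinite a c (by omega) (by omega) ((Nat.coprime_self_add_right).1 hcop) ?_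
  rintro rfl
  apply h2
  have ha0 : (a : ℚ) ≠ 0 := by
    have : 0 < a := by omega
    positivity
  rw [hl]; field_simp; norm_num

theorem ordered_infinite {e₁ e₂ e₃ : ℚ} (h12 : e₁ < e₂) (h23 : e₂ < e₃) :
    {D : ℤ | Squarefree D ∧ ∃ P : Fin 3 → (Wt e₁ e₂ e₃ D).Point,
      LinearIndependent ℤ P}.Infinite := by
  have hg : 0 < e₃ - e₁ := by linarith
  by_cases hl : (e₂ - e₁) / (e₃ - e₁) = 1 / 2
  · -- equally spaced roots: congruent number curves
    have hmid : e₁ + e₃ = 2 * e₂ := by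
      field_simp at hl; linarith
    refine transfer (g := (e₃ - e₁) / 2) (by positivity) (fun N => En N) (Wt e₁ e₂ e₃) ?_ ?_
    · intro N D k _ _ hk hD
      refine transport hk (r := D * e₂) ?_ ?_ ?_
      · linear_combination (-D) * hmid
      · have h3 : N ^ 2 * k ^ 4 = (D * ((e₃ - e₁) / 2)) ^ 2 := by rw [hD]; ring
        have h1 : e₁ = 2 * e₂ - e₃ := by linarith
        subst h1
        linear_combination h3
      · have h3 : N ^ 2 * k ^ 4 = (D * ((e₃ - e₁) / 2)) ^ 2 := by rw [hD]; ring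
        have h1 : e₁ = 2 * e₂ - e₃ := by linarith
        subst h1
        linear_combination (-(D * e₂)) * h3
    · have h := RR_infinite.image (f := fun N : ℕ => (N : ℤ)) (Nat.cast_injective.injOn)
      refine h.mono ?_
      rintro _ ⟨N, ⟨hN, P, hP⟩, rfl⟩
      refine ⟨Int.squarefree_natCast.2 hN, ?_⟩
      have hc : (((N : ℕ) : ℤ) : ℚ) = (N : ℚ) := by push_cast; rfl
      rw [hc]
      exact ⟨fun i => P i.castSucc, hP.comp _ (Fin.castSucc_injective 3)⟩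
  · obtain ⟨l, hl'⟩ : ∃ l, l = (e₂ - e₁) / (e₃ - e₁) := ⟨_, rfl⟩
    rw [← hl'] at hl
    have hlg : l * (e₃ - e₁) = e₂ - e₁ := by rw [hl']; field_simp
    have h0 : 0 < l := by rw [hl']; exact div_pos (by linarith) hg
    have h1 : l < 1 := by rw [hl', div_lt_one hg]; linarith
    refine transfer (g := e₃ - e₁) hg.ne' (fun N => TW (-(1 + l)) l N) (Wt e₁ e₂ e₃) ?_
      (leg_infinite h0 h1 hl)
    intro N D k _ _ hk hD
    have hlu : l * (N * k ^ 2) = D * (e₂ - e₁) := by rw [← hD, ← hlg]; ring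
    have hu : N * k ^ 2 = D * (e₃ - e₁) := hD.symm
    refine transport hk (r := D * e₁) ?_ ?_ ?_
    · have : -(1 + l) * N * k ^ 2 = -(N * k ^ 2) - l * (N * k ^ 2) := by ring
      rw [this, hlu, hu]; ring
    · have h5 : l * N ^ 2 * k ^ 4 = (l * (N * k ^ 2)) * (N * k ^ 2) := by ring
      have h6 : 2 * (D * e₁) * (-(1 + l) * N) * k ^ 2 =
        2 * (D * e₁) * (-(N * k ^ 2) - l * (N * k ^ 2)) := by ring
      rw [h5, h6, hlu, hu]; ring
    · have h5 : l * N ^ 2 * k ^ 4 = (l * (N * k ^ 2)) * (N * k ^ 2) := by ring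
      have h6 : -(1 + l) * N * k ^ 2 = -(N * k ^ 2) - l * (N * k ^ 2) := by ring
      rw [h5, h6, hlu, hu]; ring

theorem all_infinite {e₁ e₂ e₃ : ℚ} (h12 : e₁ ≠ e₂) (h13 : e₁ ≠ e₃) (h23 : e₂ ≠ e₃) :
    {D : ℤ | Squarefree D ∧ ∃ P : Fin 3 → (Wt e₁ e₂ e₃ D).Point,
      LinearIndependent ℤ P}.Infinite := by
  rcases lt_or_gt_of_ne h12 with h | h <;> rcases lt_or_gt_of_ne h13 with h' | h' <;>
    rcases lt_or_gt_of_ne h23 with h'' | h''
  · exact ordered_infinite h h''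
  · rw [Wt_swap23 e₁ e₂ e₃]; exact ordered_infinite h' h''
  · exfalso; linarith
  · rw [Wt_swap23 e₁ e₂ e₃, Wt_swap12 e₁ e₃ e₂]; exact ordered_infinite h' h
  · rw [Wt_swap12 e₁ e₂ e₃]; exact ordered_infinite h h'
  · exfalso; linarith
  · rw [Wt_swap12 e₁ e₂ e₃, Wt_swap23 e₂ e₁ e₃]; exact ordered_infinite h'' h'
  · rw [Wt_swap12 e₁ e₂ e₃, Wt_swap23 e₂ e₁ e₃, Wt_swap12 e₂ e₃ e₁]
    exact ordered_infinite h'' h

end H79.Tw
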