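import Pool.Agent.helper79.Tw.Final4

/-!
# Infinitely many twists of rank at least four: all curves `y^2 = x (x + a^2) (x + b^2)`
-/

namespace H79.Tw

open WeierstrassCurve WeierstrassCurve.Affine H48.CN Height Iface

theorem ordered_infinite4 {a b : ℚ} (ha : a ≠ 0) (hab : a ^ 2 < b ^ 2) :
    {D : ℤ | Squarefree D ∧ ∃ P : Fin 4 → (Wt 0 (-a ^ 2) (-b ^ 2) D).Point,
      LinearIndependent ℤ P}.Infinite := by
  have hb : b ≠ 0 := by
    rintro rfl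
    have := sq_nonneg a
    linarith
  have hs0 : 0 < |a| / |b| := div_pos (abs_pos.2 ha) (abs_pos.2 hb)
  have hs1 : |a| / |b| < 1 := by
    rw [div_lt_one (abs_pos.2 hb)]
    exact sq_lt_sq.1 hab
  have hs2 : (|a| / |b|) ^ 2 = a ^ 2 / b ^ 2 := by rw [div_pow, sq_abs, sq_abs]
  have h := sq_infinite hs0 hs1
  rw [hs2] at h
  obtain ⟨l, hl⟩ : ∃ l, l = a ^ 2 / b ^ 2 := ⟨_, rfl⟩
  rw [← hl] at h
  have hlb : l * b ^ 2 = a ^ 2 := by rw [hl]; field_simp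
  refine transfer (g := -b ^ 2) (neg_ne_zero.2 (pow_ne_zero 2 hb))
    (fun N => TW (-(1 + l)) l N) (Wt 0 (-a ^ 2) (-b ^ 2)) ?_ h
  intro N D k _ _ hk hD
  have hu : N * k ^ 2 = D * -b ^ 2 := hD.symm
  have hlu : l * (N * k ^ 2) = D * -a ^ 2 := by rw [hu, ← hlb]; ring
  refine transport hk (r := 0) ?_ ?_ ?_
  · have : -(1 + l) * N * k ^ 2 = -(N * k ^ 2) - l * (N * k ^ 2) := by ring
    rw [this, hlu, hu]; ring
  · have h5 : l * N ^ 2 * k ^ 4 = (l * (N * k ^ 2)) * (N * k ^ 2) := by ring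
    rw [h5, hlu, hu]; ring
  · ring

theorem all_infinite4 {a b : ℚ} (ha : a ≠ 0) (hb : b ≠ 0) (hab : a ^ 2 ≠ b ^ 2) :
    {D : ℤ | Squarefree D ∧ ∃ P : Fin 4 → (Wt 0 (-a ^ 2) (-b ^ 2) D).Point,
      LinearIndependent ℤ P}.Infinite := by
  rcases lt_or_gt_of_ne hab with h | h
  · exact ordered_infinite4 ha h
  · rw [Wt_swap23]; exact ordered_infinite4 hb h

end H79.Tw
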