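import Pool.Agent.helper79.Tw.Defs
import Pool.Agent.H48.CN.Main

/-!
# Passing between families of twists
-/

namespace H79.Tw

open WeierstrassCurve WeierstrassCurve.Affine H48.CN

/-- Squarefree integers in the same square class are equal. -/
theorem sqfree_unique {M N : ℤ} (hM : Squarefree M) (hN : Squarefree N) (h : IsSquare (M * N)) :
    M = N := by
  have hM0 := hM.ne_zero
  obtain ⟨k, hk⟩ := h
  have h1 : M ∣ k ^ 2 := ⟨N, by rw [sq]; exact hk.symm⟩
  have h2 : M ∣ k := (hM.dvd_pow_iff_dvd two_ne_zero).1 h1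
  obtain ⟨j, rfl⟩ := h2
  have h3 : N = M * (j * j) := by
    apply mul_left_cancel₀ hM0
    rw [hk]; ring
  have h4 : IsUnit j := hN j (by rw [h3]; exact Dvd.intro_left M rfl)
  rcases Int.isUnit_iff.1 h4 with h5 | h5 <;> rw [h3, h5] <;> ring

/-- A rational number is a squarefree integer times a square. -/
theorem exists_sqfree {q : ℚ} (hq : q ≠ 0) : ∃ (N : ℤ) (t : ℚ), Squarefree N ∧ t ≠ 0 ∧
    q = N * t ^ 2 := by
  obtain ⟨N, t, hN, ht, h1, h2⟩ := squarefree_part hq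
  have hN' : Squarefree (N : ℤ) := Int.squarefree_natCast.2 hN
  rcases lt_or_gt_of_ne hq with h | h
  · refine ⟨-N, t, ?_, ht, ?_⟩
    · rw [← Int.squarefree_natAbs, Int.natAbs_neg, Int.squarefree_natAbs]; exact hN'
    · rw [h2 h]; push_cast; ring
  · exact ⟨N, t, hN', ht, by rw [h1 h]; push_cast; ring⟩

theorem rat_isSquare_int {M : ℤ} (h : IsSquare (M : ℚ)) : IsSquare M :=
  Rat.isSquare_intCast_iff.1 h

/-- If infinitely many squarefree `N` carry `n` independent points on `V N`, and `V N` embeds in `W D`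
whenever `D g = N k ^ 2`, then infinitely many squarefree `D` carry `n` independent points. -/
theorem transfer {n : ℕ} {g : ℚ} (hg : g ≠ 0) (V W : ℚ → WeierstrassCurve.Affine ℚ)
    (hVW : ∀ N D k : ℚ, N ≠ 0 → D ≠ 0 → k ≠ 0 → D * g = N * k ^ 2 →
      ∃ ψ : (V N).Point →+ (W D).Point, Function.Injective ψ)
    (hV : {N : ℤ | Squarefree N ∧ ∃ P : Fin n → (V N).Point, LinearIndependent ℤ P}.Infinite) :
    {D : ℤ | Squarefree D ∧ ∃ P : Fin n → (W D).Point, LinearIndependent ℤ P}.Infinite := by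
  set A := {N : ℤ | Squarefree N ∧ ∃ P : Fin n → (V N).Point, LinearIndependent ℤ P} with hA
  have hmap : ∀ N : ℤ, N ∈ A → ∃ (D : ℤ) (k : ℚ), Squarefree D ∧ k ≠ 0 ∧ (D : ℚ) * g = N * k ^ 2 := by
    intro N hN
    have hN0 : (N : ℚ) ≠ 0 := by exact_mod_cast hN.1.ne_zero
    obtain ⟨D, t, hD, ht, h⟩ := exists_sqfree (q := N * g) (mul_ne_zero hN0 hg)
    refine ⟨D, g / t, hD, div_ne_zero hg ht, ?_⟩
    field_simp
    linear_combination -h
  choose! D k hD hk hDk using hmap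
  have himg : D '' A ⊆ {D : ℤ | Squarefree D ∧ ∃ P : Fin n → (W D).Point, LinearIndependent ℤ P} := by
    rintro _ ⟨N, hN, rfl⟩
    refine ⟨hD N hN, ?_⟩
    obtain ⟨ψ, hψ⟩ := hVW N (D N) (k N) (by exact_mod_cast hN.1.ne_zero)
      (by exact_mod_cast (hD N hN).ne_zero) (hk N hN) (hDk N hN)
    obtain ⟨P, hP⟩ := hN.2
    exact ⟨fun i => ψ (P i), hP.map' ψ.toIntLinearMap (LinearMap.ker_eq_bot.2 hψ)⟩
  refine (hV.image ?_).mono himg
  intro N hN N' hN' hDD
  have e1 := hDk N hN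
  have e2 := hDk N' hN'
  have hDD' : (D N : ℚ) = D N' := by exact_mod_cast congrArg (Int.cast : ℤ → ℚ) hDD
  rw [hDD', e2] at e1
  have hsq : IsSquare ((N * N' : ℤ) : ℚ) := by
    refine ⟨N * k N / k N', ?_⟩
    have h1 := hk N hN
    have h2 := hk N' hN'
    push_cast
    field_simp
    linear_combination (N : ℚ) * e1
  exact sqfree_unique hN.1 hN'.1 (rat_isSquare_int hsq)

end H79.Tw
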