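import Pool.Agent.helper79.Tw.Indep3
import Pool.Agent.helper79.Tw.Transfer

/-!
# Infinitely many twists of rank at least three: the Legendre form
-/

namespace H79.Tw

open WeierstrassCurve WeierstrassCurve.Affine H48.CN Height Iface

/-- The squarefree twists of the Legendre curve with `n` independent points. -/
def RS (n : ℕ) (l : ℚ) : Set ℤ :=
  {N : ℤ | Squarefree N ∧ ∃ P : Fin n → (TW (-(1 + l)) l (N : ℚ)).Point, LinearIndependent ℤ P}

theorem key3 {a c x y v : ℚ} (ha : 0 < a) (hc : 0 < c)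
    (e : y ^ 2 = x * (x - a3 a c) * (x + b3 a c)) (hv0 : v ≠ 0)
    (hv : -((a + c) * c * x) = v ^ 2) :
    (a / (a + c)) * (1 - a / (a + c)) * ((1 - a / (a + c) + (a / (a + c)) ^ 2) *
      ((a ^ 2 * (a + c) ^ 2 * c ^ 2 - x) / (a * (a + c) * c ^ 2 * (a ^ 2 + a * c + c ^ 2))) -
        a / (a + c)) = (v / ((a + c) ^ 3 * c)) ^ 2 ∧
    (((a ^ 2 * (a + c) ^ 2 * c ^ 2 - x) / (a * (a + c) * c ^ 2 * (a ^ 2 + a * c + c ^ 2))) -
      a / (a + c)) * (1 - (1 - a / (a + c)) *
      ((a ^ 2 * (a + c) ^ 2 * c ^ 2 - x) / (a * (a + c) * c ^ 2 * (a ^ 2 + a * c + c ^ 2)))) =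
      (y / (a * (a + c) * c * (a ^ 2 + a * c + c ^ 2) * v)) ^ 2 := by
  have hb : 0 < a + c := by linarith
  have hq : 0 < a ^ 2 + a * c + c ^ 2 := by positivity
  unfold a3 b3 at e
  have ha' := ha.ne'
  have hc' := hc.ne'
  have hb' := hb.ne'
  have hq' := hq.ne'
  constructor
  · field_simp
    linear_combination (a ^ 2 + a * c + c ^ 2) * hv
  · have h1 : ((a ^ 2 * (a + c) ^ 2 * c ^ 2 - x) / (a * (a + c) * c ^ 2 * (a ^ 2 + a * c + c ^ 2))) -
      a / (a + c) = (a ^ 3 * c ^ 3 - x) / (a * (a + c) * c ^ 2 * (a ^ 2 + a * c + c ^ 2)) := by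
      field_simp; ring
    have h2 : 1 - (1 - a / (a + c)) *
      ((a ^ 2 * (a + c) ^ 2 * c ^ 2 - x) / (a * (a + c) * c ^ 2 * (a ^ 2 + a * c + c ^ 2))) =
      (x + a * (a + c) ^ 2 * c * (a ^ 2 + c ^ 2)) /
        (a * (a + c) ^ 2 * c * (a ^ 2 + a * c + c ^ 2)) := by
      field_simp; ring
    rw [h1, h2, div_pow, div_mul_div_comm, div_eq_div_iff (by positivity) (by positivity), mul_pow _ v,
      ← hv, e]
    ring

theorem frac_infinite (a c : ℕ) (ha : 0 < a) (hc : 0 < c) (hco : a.Coprime c) (hne : a ≠ c) :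
    (RS 3 ((a : ℚ) / (a + c))).Infinite := by
  have ha' : (0 : ℚ) < a := by exact_mod_cast ha
  have hc' : (0 : ℚ) < c := by exact_mod_cast hc
  have hne' : (a : ℚ) ≠ c := by exact_mod_cast hne
  have hb : (0 : ℚ) < a + c := by linarith
  have hq : (0 : ℚ) < (a : ℚ) ^ 2 + a * c + c ^ 2 := by positivity
  have hl0 : (a : ℚ) / (a + c) ≠ 0 := (div_pos ha' hb).ne'
  have hl1 : (a : ℚ) / (a + c) ≠ 1 := by
    rw [Ne, div_eq_one_iff_eq hb.ne']; intro h; linarith
  obtain ⟨H, hH⟩ := indep3 hl0 hl1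
  obtain ⟨h0, hinf, hodd⟩ := base3 a c ha hc hco hne
  have hM : (0 : ℚ) < a * (a + c) * c ^ 2 * (a ^ 2 + a * c + c ^ 2) := by positivity
  set M : ℚ := a * (a + c) * c ^ 2 * (a ^ 2 + a * c + c ^ 2) with hMdef
  set K : ℚ := (a : ℚ) ^ 2 * (a + c) ^ 2 * c ^ 2 with hK
  set l : ℚ := (a : ℚ) / (a + c) with hl
  set U : Polynomial ℚ := Polynomial.C (1 / M) * (Polynomial.C K - Polynomial.X) with hU
  have hUe : ∀ x : ℚ, U.eval x = (K - x) / M := by
    intro x; rw [hU]; simp; ring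
  set δ : ℚ := a * (a + c) * c ^ 4 with hδ
  have hu1 : ∀ x : ℚ, (K - x) / M - 1 = -(x + δ) / M := by
    intro x; rw [hδ, hK, hMdef]; field_simp; ring
  have hul : ∀ x : ℚ, (K - x) / M - l = (a3 a c - x) / M := by
    intro x; rw [hl, hK, hMdef]; unfold a3; field_simp; ring
  have hfe : ∀ x : ℚ, (U * (U - 1) * (U - Polynomial.C l)).eval x =
      (K - x) / M * (-(x + δ) / M) * ((a3 a c - x) / M) := by
    intro x
    rw [Polynomial.eval_mul, Polynomial.eval_mul, Polynomial.eval_sub, Polynomial.eval_sub,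
      Polynomial.eval_one, Polynomial.eval_C, hUe, hu1, hul]
  have hα : 0 < a3 (a : ℚ) c := by unfold a3; positivity
  have hβ : 0 < b3 (a : ℚ) c := by unfold b3; positivity
  have hδ0 : 0 < δ := by rw [hδ]; positivity
  have hK0 : 0 < K := by rw [hK]; positivity
  refine engine hα hβ hδ0 ?_ h0 ?_ hinf (U * (U - 1) * (U - Polynomial.C l)) ?_ ?_ ?_ ?_ _
    ({x : ℚ | logHeight₁ ((K - x) / M) ≤ H} ∪ {-δ}) ?_ ?_
  · rw [hδ]; unfold b3
    have : (c : ℚ) ^ 4 < (a + c) * c * (a ^ 2 + c ^ 2) := by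
      have : (0 : ℚ) < a ^ 3 * c + a * c ^ 3 + a ^ 2 * c ^ 2 := by positivity
      nlinarith
    calc (a : ℚ) * (a + c) * c ^ 4 < a * (a + c) * ((a + c) * c * (a ^ 2 + c ^ 2)) :=
          mul_lt_mul_of_pos_left this (by positivity)
      _ = a * (a + c) ^ 2 * c * (a ^ 2 + c ^ 2) := by ring
  · have : (0 : ℚ) < a ^ 4 * (a + c) * c := by positivity
    linarith
  · rw [hfe]
    refine mul_ne_zero (mul_ne_zero (div_ne_zero ?_ hM.ne') (div_ne_zero ?_ hM.ne'))
      (div_ne_zero ?_ hM.ne')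
    · have : (0 : ℚ) < a ^ 4 * (a + c) * c := by positivity
      intro h; linarith
    · rw [hδ]
      have : -(-((a : ℚ) ^ 4 * (a + c) * c) + a * (a + c) * c ^ 4) =
          a * (a + c) * c * ((a - c) * (a ^ 2 + a * c + c ^ 2)) := by ring
      rw [this]
      exact mul_ne_zero (by positivity) (mul_ne_zero (sub_ne_zero.2 hne') hq.ne')
    · have : (0 : ℚ) < a ^ 4 * (a + c) * c := by positivity
      intro h; linarith
  · rw [hfe]; simp
  · intro x h1 h2
    rw [hfe]
    have : 0 < -(x + δ) := by linarith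
    have : 0 < K - x := by linarith
    have : 0 < a3 (a : ℚ) c - x := by linarith
    positivity
  · intro x h1 h2
    rw [hfe]
    have k1 : 0 < x + δ := by linarith
    have k2 : 0 < K - x := by linarith
    have k3 : 0 < a3 (a : ℚ) c - x := by linarith
    have : (K - x) / M * (-(x + δ) / M) * ((a3 a c - x) / M) =
        -((K - x) / M * ((x + δ) / M) * ((a3 a c - x) / M)) := by ring
    rw [this]
    have : 0 < (K - x) / M * ((x + δ) / M) * ((a3 a c - x) / M) := by positivity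
    linarith
  · have hfin := NumberField.finite_setOfPred_logHeight₁_le (K := ℚ) H
    refine Set.Finite.union (hfin.preimage (f := fun x : ℚ => (K - x) / M) ?_)
      (Set.finite_singleton _)
    intro x _ y _ hxy
    have h1 : (K - x) / M = (K - y) / M := hxy
    rw [div_left_inj' hM.ne'] at h1
    linarith
  · intro k x y h hk hx
    obtain ⟨hx0, v, hv0, hv⟩ := hodd k x y h hk
    have e : y ^ 2 = x * (x - a3 a c) * (x + b3 a c) := by
      have := eqn_iff.1 h.1
      linear_combination this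
    obtain ⟨k1, k2⟩ := key3 ha' hc' e hv0 hv
    rw [Set.mem_union, not_or] at hx
    have hx' : H < logHeight₁ ((K - x) / M) := by
      by_contra hcon
      exact hx.1 (not_lt.1 hcon)
    have hxδ : x + δ ≠ 0 := by
      intro h'
      exact hx.2 (by rw [Set.mem_singleton_iff]; linarith)
    have hne0 : (K - x) / M * ((K - x) / M - 1) * ((K - x) / M - l) ≠ 0 := by
      rw [hu1, hul]
      refine mul_ne_zero (mul_ne_zero (div_ne_zero (by linarith) hM.ne') (div_ne_zero ?_ hM.ne'))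
        (div_ne_zero (by linarith) hM.ne')
      exact neg_ne_zero.2 hxδ
    obtain ⟨N, t, hN, ht, hNt⟩ := exists_sqfree hne0
    have hN0 : (N : ℚ) ≠ 0 := by exact_mod_cast hN.ne_zero
    refine ⟨N, ⟨hN, hH N t _ _ _ hN0 ht hNt k1 k2 hx'⟩, t, ht, hN.ne_zero, ?_⟩
    rw [hfe, ← hNt, hu1, hul]

end H79.Tw
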