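import Pool.Agent.helper79.Tw.Indep4
import Pool.Agent.helper79.Tw.Gen3

/-!
# Infinitely many twists of rank at least four
-/

namespace H79.Tw

open WeierstrassCurve WeierstrassCurve.Affine H48.CN Height Iface

/-- The parameter `v` as a function of the `X`-coordinate of the base curve. -/
def vv (s X : ℚ) : ℚ := (X + c41 s * c42 s * (1 + s) ^ 2) / (c41 s * c42 s * c43 s)

/-- The parameter `x`. -/
def xx (s X : ℚ) : ℚ := (1 - 4 * s * vv s X) / (vv s X * (1 - s) ^ 2)

section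

variable {s : ℚ} (h0 : 0 < s) (h1 : s < 1)

include h0 in
theorem c41_pos : 0 < c41 s := by
  unfold c41
  have : 0 < s ^ 2 - 3 * s + 4 := by nlinarith [sq_nonneg (2 * s - 3)]
  positivity

include h0 h1 in
theorem c42_pos : 0 < c42 s := by
  unfold c42
  have : 0 < 1 - s := by linarith
  positivity

include h0 in
theorem c43_pos : 0 < c43 s := by
  unfold c43
  positivity

include h0 h1 in
theorem v_id1 (X : ℚ) : 1 - c41 s * vv s X = (a4 s - X) / (c42 s * c43 s) := by
  have k1 := (c41_pos h0).ne'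
  have k2 := (c42_pos h0 h1).ne'
  have k3 := (c43_pos h0).ne'
  have h : c42 s * c43 s - c41 s * c42 s * (1 + s) ^ 2 = a4 s := by
    unfold c41 c42 c43 a4; ring
  unfold vv
  field_simp
  rw [← h]; ring

include h0 h1 in
theorem v_id2 (X : ℚ) : c42 s * vv s X - (1 - s ^ 2) = (X + b4 s) / (c41 s * c43 s) := by
  have k1 := (c41_pos h0).ne'
  have k2 := (c42_pos h0 h1).ne'
  have k3 := (c43_pos h0).ne'
  have h : c41 s * c42 s * (1 + s) ^ 2 - c41 s * c43 s * (1 - s ^ 2) = b4 s := by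
    unfold c41 c42 c43 b4; ring
  unfold vv
  field_simp
  rw [← h]; ring

include h0 h1 in
theorem v_id3 (X : ℚ) : (1 + s) ^ 2 - c43 s * vv s X = -X / (c41 s * c42 s) := by
  have k1 := (c41_pos h0).ne'
  have k2 := (c42_pos h0 h1).ne'
  have k3 := (c43_pos h0).ne'
  unfold vv
  field_simp
  ring

/-- The bound `δ`. -/
def dd (s : ℚ) : ℚ := c41 s * c42 s * (1 - s) ^ 4 / (1 + s) ^ 2

include h0 h1 in
theorem v_id4 (X : ℚ) : 1 - (1 + s) ^ 2 * vv s X =
    -(X + dd s) * (1 + s) ^ 2 / (c41 s * c42 s * c43 s) := by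
  have k1 := (c41_pos h0).ne'
  have k2 := (c42_pos h0 h1).ne'
  have k3 := (c43_pos h0).ne'
  have hs : (1 + s) ≠ 0 := by positivity
  have h : c43 s = (1 + s) ^ 4 - (1 - s) ^ 4 := by unfold c43; ring
  unfold vv dd
  field_simp
  rw [h]; ring

include h0 h1 in
theorem v_id5 (X : ℚ) : 1 - 4 * s * vv s X =
    ((1 - s) ^ 2 + -X / (c41 s * c42 s)) / (2 * (1 + s ^ 2)) := by
  have h3 := v_id3 h0 h1 X
  have hs : (1 + s ^ 2) ≠ 0 := by positivity
  rw [← h3]
  unfold c43
  field_simp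
  ring

include h0 h1 in
theorem vv_pos {X : ℚ} (hX : -b4 s ≤ X) : 0 < vv s X := by
  have h2 := v_id2 h0 h1 X
  have k1 := c41_pos h0
  have k2 := c42_pos h0 h1
  have k3 := c43_pos h0
  have h : 0 ≤ (X + b4 s) / (c41 s * c43 s) := div_nonneg (by linarith) (by positivity)
  have h4 : 0 < 1 - s ^ 2 := by nlinarith
  have h5 : 0 < c42 s * vv s X := by linarith
  exact (mul_pos_iff_of_pos_left k2).1 h5

end

theorem sq_infinite {s : ℚ} (h0 : 0 < s) (h1 : s < 1) : (RS 4 (s ^ 2)).Infinite := by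
  have hs1 : 0 < 1 - s := by linarith
  have hs1' := hs1.ne'
  have k1 := c41_pos h0
  have k2 := c42_pos h0 h1
  have k3 := c43_pos h0
  have k1' := k1.ne'
  have k2' := k2.ne'
  have k3' := k3.ne'
  have hl1 : s ^ 2 ≠ 1 := by nlinarith
  obtain ⟨H, hH⟩ := indep4 (l := s ^ 2) rfl h0.ne' hl1
  obtain ⟨y0, hns, hinf, hodd⟩ := base4 s h0 h1
  have hα : 0 < a4 s := by unfold a4; positivity
  have hβ : 0 < b4 s := by
    unfold b4
    have : 0 < s ^ 2 - 3 * s + 4 := by nlinarith [sq_nonneg (2 * s - 3)]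
    have : 0 < 4 * s ^ 2 - 3 * s + 1 := by nlinarith [sq_nonneg (8 * s - 3)]
    positivity
  have hδ : 0 < dd s := by unfold dd; positivity
  -- the polynomial
  set V : Polynomial ℚ := Polynomial.C (1 / (c41 s * c42 s * c43 s)) *
    (Polynomial.X + Polynomial.C (c41 s * c42 s * (1 + s) ^ 2)) with hV
  have hVe : ∀ X : ℚ, V.eval X = vv s X := by
    intro X; rw [hV]; unfold vv; simp; field_simp
  set f : Polynomial ℚ := V * (1 - Polynomial.C (4 * s) * V) *
    (1 - Polynomial.C ((1 + s) ^ 2) * V) * (1 - Polynomial.C (c41 s) * V) with hf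
  have hfe : ∀ X : ℚ, f.eval X = vv s X * (1 - 4 * s * vv s X) * (1 - (1 + s) ^ 2 * vv s X) *
      (1 - c41 s * vv s X) := by
    intro X
    rw [hf]
    simp only [Polynomial.eval_mul, Polynomial.eval_sub, Polynomial.eval_one, Polynomial.eval_C,
      hVe]
  have hc : 0 < c41 s * c42 s * c43 s := by positivity
  have hquad : (1 - 3 * s - 2 * s ^ 2) ≠ 0 := by
    intro h
    have h2 : IsSquare (17 : ℚ) := ⟨4 * s + 3, by linear_combination (8 : ℚ) * h⟩
    have h3 : IsSquare ((17 : ℤ) : ℚ) := by exact_mod_cast h2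
    rw [Rat.isSquare_intCast_iff] at h3
    obtain ⟨r, hr⟩ := h3
    have : r.natAbs * r.natAbs = 17 := by
      have := congrArg Int.natAbs hr
      rw [Int.natAbs_mul] at this
      exact this.symm
    have h5 : r.natAbs < 5 := by nlinarith
    interval_cases r.natAbs <;> omega
  have hquad' : (1 + 3 * s - 2 * s ^ 2) ≠ 0 := by
    intro h
    have h2 : IsSquare (17 : ℚ) := ⟨4 * s - 3, by linear_combination (8 : ℚ) * h⟩
    have h3 : IsSquare ((17 : ℤ) : ℚ) := by exact_mod_cast h2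
    rw [Rat.isSquare_intCast_iff] at h3
    obtain ⟨r, hr⟩ := h3
    have : r.natAbs * r.natAbs = 17 := by
      have := congrArg Int.natAbs hr
      rw [Int.natAbs_mul] at this
      exact this.symm
    have h5 : r.natAbs < 5 := by nlinarith
    interval_cases r.natAbs <;> omega
  set X0 : ℚ := -(c41 s * c42 s * (1 - s) ^ 2 *
    ((1 - 3 * s - 2 * s ^ 2) / (1 + 3 * s - 2 * s ^ 2)) ^ 2) with hX0
  have hX0neg : X0 < 0 := by
    rw [hX0]
    have : 0 < c41 s * c42 s * (1 - s) ^ 2 *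
      ((1 - 3 * s - 2 * s ^ 2) / (1 + 3 * s - 2 * s ^ 2)) ^ 2 := by positivity
    linarith
  obtain ⟨hx0', u0, v0, w0, hu0, hv0, hw0, e1, e2, e3⟩ := hodd 0 X0 y0 hns
    (by rw [mul_zero, zero_add, one_nsmul])
  have hX0β : -b4 s ≤ X0 := by
    have : 0 ≤ c41 s * c43 s * w0 ^ 2 := by positivity
    linarith
  have hVX0 : vv s X0 = (2 - s ^ 2) / (1 + 3 * s - 2 * s ^ 2) ^ 2 := by
    have h3 : c43 s = 8 * s * (1 + s ^ 2) := rfl
    have h4 : X0 * (1 + 3 * s - 2 * s ^ 2) ^ 2 =
        -(c41 s * c42 s * (1 - s) ^ 2 * (1 - 3 * s - 2 * s ^ 2) ^ 2) := by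
      have hgen : ∀ a P Q : ℚ, Q ≠ 0 → -(a * (P / Q) ^ 2) * Q ^ 2 = -(a * P ^ 2) := by
        intro a P Q hQ; field_simp
      rw [hX0]; exact hgen _ _ _ hquad'
    unfold vv
    rw [div_eq_div_iff hc.ne' (pow_ne_zero 2 hquad'), add_mul, h4, h3]
    ring
  have hδβ : dd s < b4 s := by
    have h4 := v_id4 h0 h1 (-b4 s)
    have h2 := v_id2 h0 h1 (-b4 s)
    have hv2 : c42 s * vv s (-b4 s) = 1 - s ^ 2 := by
      rw [neg_add_cancel, zero_div] at h2; linarith
    have hvv : vv s (-b4 s) = (1 - s ^ 2) / c42 s := by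
      field_simp; linarith
    have h5 : 0 < 1 - (1 + s) ^ 2 * vv s (-b4 s) := by
      rw [hvv]
      have : 1 - (1 + s) ^ 2 * ((1 - s ^ 2) / c42 s) = s ^ 2 * (1 - s) ^ 2 / c42 s := by
        field_simp
        unfold c42; ring
      rw [this]; positivity
    rw [h4] at h5
    by_contra hcon
    push Not at hcon
    have : -(-b4 s + dd s) * (1 + s) ^ 2 / (c41 s * c42 s * c43 s) ≤ 0 := by
      apply div_nonpos_of_nonpos_of_nonneg _ hc.le
      have : 0 ≤ (-b4 s + dd s) * (1 + s) ^ 2 := mul_nonneg (by linarith) (by positivity)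
      linarith
    linarith
  refine engine hα hβ hδ hδβ hns hX0neg hinf f ?_ ?_ ?_ ?_ _
    ({X : ℚ | vv s X ≠ 0 ∧ logHeight₁ (xx s X) ≤ H} ∪ {-dd s}) ?_ ?_
  · -- f(X0) ≠ 0
    rw [hfe]
    have g1 := vv_pos h0 h1 hX0β
    have g2 := v_id5 h0 h1 X0
    have g3 := v_id1 h0 h1 X0
    refine mul_ne_zero (mul_ne_zero (mul_ne_zero g1.ne' ?_) ?_) ?_
    · rw [g2]
      have : 0 < -X0 / (c41 s * c42 s) := div_pos (by linarith) (by positivity)
      positivity
    · rw [hVX0]
      intro h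
      have h6 : (1 + 3 * s - 2 * s ^ 2) ^ 2 - (1 + s) ^ 2 * (2 - s ^ 2) = 0 := by
        have hQ := pow_ne_zero 2 hquad'
        have h9 : (1 + s) ^ 2 * ((2 - s ^ 2) / (1 + 3 * s - 2 * s ^ 2) ^ 2) = 1 := by linarith
        rw [← mul_div_assoc, div_eq_one_iff_eq hQ] at h9
        linarith
      have h7 : (1 - s) ^ 2 * (5 * s ^ 2 - 1) = 0 := by linear_combination h6
      rcases mul_eq_zero.1 h7 with h8 | h8
      · exact hs1' (pow_eq_zero_iff two_ne_zero |>.1 h8)
      · have h2 : IsSquare (5 : ℚ) := ⟨5 * s, by linear_combination (-5 : ℚ) * h8⟩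
        have h3 : IsSquare ((5 : ℤ) : ℚ) := by exact_mod_cast h2
        rw [Rat.isSquare_intCast_iff] at h3
        obtain ⟨r, hr⟩ := h3
        have : r.natAbs * r.natAbs = 5 := by
          have := congrArg Int.natAbs hr
          rw [Int.natAbs_mul] at this
          exact this.symm
        have h5 : r.natAbs < 3 := by nlinarith
        interval_cases r.natAbs <;> omega
    · rw [g3]
      have : 0 < a4 s - X0 := by linarith
      positivity
  · rw [hfe, v_id4 h0 h1]; simp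
  · intro X hX hXδ
    have g1 := vv_pos h0 h1 hX
    rw [hfe, v_id5 h0 h1, v_id1 h0 h1, v_id4 h0 h1]
    have a1 : 0 < a4 s - X := by linarith
    have a2 : 0 < -(X + dd s) := by linarith
    have a3 : 0 < -X / (c41 s * c42 s) := div_pos (by linarith) (by positivity)
    positivity
  · intro X hXδ hX
    have hdd : -b4 s ≤ X := by linarith
    have g1 := vv_pos h0 h1 hdd
    rw [hfe, v_id5 h0 h1, v_id1 h0 h1, v_id4 h0 h1]
    have a1 : 0 < a4 s - X := by linarith
    have a2 : 0 < (X + dd s) := by linarith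
    have a3 : 0 < -X / (c41 s * c42 s) := div_pos (by linarith) (by positivity)
    have : vv s X * (((1 - s) ^ 2 + -X / (c41 s * c42 s)) / (2 * (1 + s ^ 2))) *
      (-(X + dd s) * (1 + s) ^ 2 / (c41 s * c42 s * c43 s)) * ((a4 s - X) / (c42 s * c43 s)) =
      -(vv s X * (((1 - s) ^ 2 + -X / (c41 s * c42 s)) / (2 * (1 + s ^ 2))) *
      ((X + dd s) * (1 + s) ^ 2 / (c41 s * c42 s * c43 s)) * ((a4 s - X) / (c42 s * c43 s))) := by
      ring
    rw [this]
    have : 0 < (vv s X * (((1 - s) ^ 2 + -X / (c41 s * c42 s)) / (2 * (1 + s ^ 2))) *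
      ((X + dd s) * (1 + s) ^ 2 / (c41 s * c42 s * c43 s)) * ((a4 s - X) / (c42 s * c43 s))) := by
      positivity
    linarith
  · refine Set.Finite.union ?_ (Set.finite_singleton _)
    have hfin := NumberField.finite_setOfPred_logHeight₁_le (K := ℚ) H
    refine Set.Finite.of_finite_image (f := xx s) (hfin.subset ?_) ?_
    · rintro _ ⟨X, ⟨-, hX⟩, rfl⟩; exact hX
    · rintro X ⟨hX, -⟩ Y ⟨hY, -⟩ hXY
      unfold xx at hXY
      rw [div_eq_div_iff (mul_ne_zero hX (pow_ne_zero 2 hs1'))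
        (mul_ne_zero hY (pow_ne_zero 2 hs1'))] at hXY
      have h5 : (1 - s) ^ 2 * (vv s Y - vv s X) = 0 := by linear_combination hXY
      rcases mul_eq_zero.1 h5 with h6 | h6
      · exact absurd (pow_eq_zero_iff two_ne_zero |>.1 h6) hs1'
      · have h7 : vv s Y = vv s X := by linarith
        unfold vv at h7
        rw [div_left_inj' hc.ne'] at h7
        linarith
  · intro k X y h hk hX
    obtain ⟨hXneg, u, v, w, hu, hv, hw, e1, e2, e3⟩ := hodd k X y h hk
    rw [Set.mem_union, not_or] at hX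
    have hXβ : -b4 s ≤ X := by
      have : 0 ≤ c41 s * c43 s * w ^ 2 := by positivity
      linarith
    have g1 := vv_pos h0 h1 hXβ
    have g1' := g1.ne'
    have hXH : H < logHeight₁ (xx s X) := by
      by_contra hcon
      exact hX.1 ⟨g1', not_lt.1 hcon⟩
    have i1 := v_id1 h0 h1 X
    have i2 := v_id2 h0 h1 X
    have i3 := v_id3 h0 h1 X
    have i4 := v_id4 h0 h1 X
    have i5 := v_id5 h0 h1 X
    have j1 : 1 - c41 s * vv s X = v ^ 2 := by
      rw [i1, e2]; field_simp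
    have j2 : c42 s * vv s X - (1 - s ^ 2) = w ^ 2 := by
      rw [i2, e3]; field_simp
    have j3 : (1 + s) ^ 2 - c43 s * vv s X = u ^ 2 := by
      rw [i3, e1]; field_simp
    have q1 : xx s X - s ^ 2 = v ^ 2 / (vv s X * (1 - s) ^ 2) := by
      rw [← j1]; unfold xx c41; field_simp; ring
    have q2 : 1 - (1 - s ^ 2) * xx s X = (w / v) ^ 2 * (xx s X - s ^ 2) := by
      rw [q1]
      have : (w / v) ^ 2 * (v ^ 2 / (vv s X * (1 - s) ^ 2)) = w ^ 2 / (vv s X * (1 - s) ^ 2) := by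
        field_simp
      rw [this, ← j2]; unfold xx c42; field_simp; ring
    have q3 : (1 + s) ^ 2 * xx s X - 4 * s = (u / v) ^ 2 * (xx s X - s ^ 2) := by
      rw [q1]
      have : (u / v) ^ 2 * (v ^ 2 / (vv s X * (1 - s) ^ 2)) = u ^ 2 / (vv s X * (1 - s) ^ 2) := by
        field_simp
      rw [this, ← j3]; unfold xx c43; field_simp; ring
    have q4 : (1 - s) ^ 2 * xx s X + 4 * s = ((1 - s) / v) ^ 2 * (xx s X - s ^ 2) := by
      rw [q1]
      have : ((1 - s) / v) ^ 2 * (v ^ 2 / (vv s X * (1 - s) ^ 2)) = 1 / vv s X := by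
        field_simp
      rw [this]; unfold xx; field_simp; ring
    have hD : xx s X * (xx s X - 1) * (xx s X - s ^ 2) =
        f.eval X / (vv s X ^ 2 * (1 - s) ^ 3) ^ 2 := by
      rw [hfe, q1, ← j1]; unfold xx; field_simp; ring
    have hfX : f.eval X ≠ 0 := by
      rw [hfe, i5, i1, i4]
      have a1 : 0 < a4 s - X := by linarith
      have a3 : 0 < -X / (c41 s * c42 s) := div_pos (by linarith) (by positivity)
      have a2 : X + dd s ≠ 0 := by
        intro h'; exact hX.2 (by rw [Set.mem_singleton_iff]; linarith)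
      refine mul_ne_zero (mul_ne_zero (mul_ne_zero g1' (by positivity)) ?_) (by positivity)
      exact div_ne_zero (mul_ne_zero (neg_ne_zero.2 a2) (by positivity)) hc.ne'
    have hDne : xx s X * (xx s X - 1) * (xx s X - s ^ 2) ≠ 0 := by
      rw [hD]; exact div_ne_zero hfX (by positivity)
    obtain ⟨N, t, hN, ht, hNt⟩ := exists_sqfree hDne
    have hN0 : (N : ℚ) ≠ 0 := by exact_mod_cast hN.ne_zero
    refine ⟨N, ⟨hN, hH N t _ _ _ _ hN0 ht hNt q2 q3 q4 hXH⟩, t * (vv s X ^ 2 * (1 - s) ^ 3),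
      by positivity, hN.ne_zero, ?_⟩
    rw [hD] at hNt
    rw [mul_pow, ← mul_assoc, ← hNt]
    field_simp

end H79.Tw
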