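import Pool.Agent.helper79.Tw.Gen3

/-!
# Every elliptic curve with full rational 2-torsion has infinitely many quadratic twists of rank >= 3

Let `E : y^2 = x (x - 1) (x - l)` with `l` a rational number different from `0`, `1`, and write
`f` for the cubic. For a rational number `x` the twist `f(x) y^2 = f(X)` contains a point with
abscissa `x`; it contains points with abscissae `(x - l) / ((1 - l) x)` and `(x - 1) / x` as soon as
`l (1 - l) ((1 - l + l^2) x - l)` and `(x - l) (1 - (1 - l) x)` are squares. These conditions define
a curve of genus one which for EVERY `l` has the rational point `x = l / (1 - l)`.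

* For `l = a / (a + c)` with `a`, `c` coprime positive integers, the quotient of this curve by a
  translation is `Y^2 = X (X - a^3 c^3) (X + a (a + c)^2 c (a^2 + c^2))`, the odd multiples of the
  point `X = - a^4 (a + c) c` lift to it, and this point has infinite order unless `a = c`: its double
  or its quadruple is not integral at some prime, and a nonzero torsion point is integral.
* Independence: canonical heights on all twists at once (the approximate parallelogram law for the
  height of the abscissa has a constant independent of the twist). The three points have height
  `h(x) + O(1)`, two of the three height pairings are `O(1)` because changing the sign of a square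
  root amounts to `m -> -m` on a conic, and the third is at most `(3/4) h(x) + O(1)`: the Gram matrix
  is nondegenerate for all but finitely many `x`.
* Infinitely many twists: if only finitely many square classes of `f(x)` occurred, one prime
  `p = -1 mod 4 N` would make the sign of `f(x)` constant along an arithmetic progression of
  multiples of the point, but these cannot stay in one of the two arcs of the oval of the real curve
  cut out by `x = 1`.
* The remaining curve `l = 1/2` is the congruent number curve.
-/

namespace Pool.Agent.Results.MP_157626_nt.FullTwoTorsionRankThree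

open WeierstrassCurve

/-- The quadratic twist by `D` of the elliptic curve `y^2 = (x - e₁) (x - e₂) (x - e₃)`, that is
`y^2 = (x - D e₁) (x - D e₂) (x - D e₃)`. -/
def twist (e₁ e₂ e₃ : ℚ) (D : ℤ) : WeierstrassCurve.Affine ℚ :=
  ⟨0, -(D * (e₁ + e₂ + e₃)), 0, (D : ℚ) ^ 2 * (e₁ * e₂ + e₁ * e₃ + e₂ * e₃),
    -((D : ℚ) ^ 3 * (e₁ * e₂ * e₃))⟩

/-- Every elliptic curve `y^2 = (x - e₁) (x - e₂) (x - e₃)` over the rational numbers (`e₁`, `e₂`,
`e₃` distinct rational numbers), that is, every elliptic curve over the rational numbers with full
rational 2-torsion, has infinitely many quadratic twists by squarefree integers whose Mordell-Weil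
rank is at least `3`. -/
theorem result (e₁ e₂ e₃ : ℚ) (h12 : e₁ ≠ e₂) (h13 : e₁ ≠ e₃) (h23 : e₂ ≠ e₃) :
    {D : ℤ | Squarefree D ∧ 3 ≤ Module.rank ℤ (twist e₁ e₂ e₃ D).Point}.Infinite := by
  refine (H79.Tw.all_infinite h12 h13 h23).mono ?_
  rintro D ⟨hD, P, hP⟩
  refine ⟨hD, ?_⟩
  change 3 ≤ Module.rank ℤ (H79.Tw.Wt e₁ e₂ e₃ (D : ℚ)).Point
  simpa using hP.cardinal_le_rank

end Pool.Agent.Results.MP_157626_nt.FullTwoTorsionRankThree
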