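import Pool.Agent.helper79.Tw.Mods

/-!
# Three independent points
-/

namespace H79.Tw

open WeierstrassCurve WeierstrassCurve.Affine H48.CN Height Iface

theorem good_leg {l : ℚ} (h0 : l ≠ 0) (h1 : l ≠ 1) : l * ((-(1 + l)) ^ 2 - 4 * l) ≠ 0 := by
  have : l * ((-(1 + l)) ^ 2 - 4 * l) = l * (1 - l) ^ 2 := by ring
  rw [this]
  exact mul_ne_zero h0 (pow_ne_zero 2 (sub_ne_zero.2 (Ne.symm h1)))

/-- For all but finitely many `x` the three points are independent. -/
theorem indep3 {l : ℚ} (h0 : l ≠ 0) (h1 : l ≠ 1) :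
    ∃ H : ℝ, ∀ N t x w v : ℚ, N ≠ 0 → t ≠ 0 → x * (x - 1) * (x - l) = N * t ^ 2 →
      l * (1 - l) * ((1 - l + l ^ 2) * x - l) = w ^ 2 →
      (x - l) * (1 - (1 - l) * x) = v ^ 2 → H < logHeight₁ x →
      ∃ P : Fin 3 → (TW (-(1 + l)) l N).Point, LinearIndependent ℤ P := by
  have hE := good_leg h0 h1
  have h1' : 1 - l ≠ 0 := sub_ne_zero.2 (Ne.symm h1)
  obtain ⟨C0, hC0⟩ := parallelogram hE
  obtain ⟨C1, hC1⟩ := height_mobius (a := 1) (b := -l) (c := 1 - l) (d := 0)
    (by ring_nf; intro h; apply mul_ne_zero h0 h1'; linear_combination h)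
  obtain ⟨C2, hC2⟩ := height_mobius (a := 1) (b := -1) (c := 1) (d := 0) (by norm_num)
  obtain ⟨C3, H3, hC3⟩ := pair_rot h0 h1 hE
  obtain ⟨C4, H4, hC4⟩ := pair_M2 h0 h1 hE
  obtain ⟨C5, hC5⟩ := sum_ge h0 h1 hE
  set K : ℝ := |C0| + |C1| + |C2| + |C3| + |C4| + |C5| with hK
  refine ⟨max (max H3 H4) (100 * K + 100), ?_⟩
  intro N t x w v hN ht hD hw hv hH
  have hH3 : H3 < logHeight₁ x := lt_of_le_of_lt ((le_max_left _ _).trans (le_max_left _ _)) hH
  have hH4 : H4 < logHeight₁ x := lt_of_le_of_lt ((le_max_right _ _).trans (le_max_left _ _)) hH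
  have hHK : 100 * K + 100 < logHeight₁ x := lt_of_le_of_lt (le_max_right _ _) hH
  have hNt : N * t ^ 2 ≠ 0 := mul_ne_zero hN (pow_ne_zero 2 ht)
  rw [← hD] at hNt
  have hx : x ≠ 0 := by rintro rfl; simp at hNt
  have hx1 : x - 1 ≠ 0 := by intro h; rw [h] at hNt; simp at hNt
  have hxl : x - l ≠ 0 := by intro h; rw [h] at hNt; simp at hNt
  set m := w / (l * (1 - l)) with hm
  set n := v / (x - l) with hn
  have hκ : l * (1 - l) ≠ 0 := mul_ne_zero h0 h1'
  have hm' : (1 - l + l ^ 2) * x - l = l * (1 - l) * m ^ 2 := by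
    rw [hm]; field_simp; linear_combination hw
  have hn' : 1 - (1 - l) * x = n ^ 2 * (x - l) := by
    rw [hn]; field_simp; linear_combination hv
  have e1 : N * t ^ 2 = x * (x ^ 2 + -(1 + l) * x + l) := by rw [← hD]; ring
  have e2 : N * (t * (l * m / ((1 - l) * x ^ 2))) ^ 2 = ((x - l) / ((1 - l) * x)) *
      (((x - l) / ((1 - l) * x)) ^ 2 + -(1 + l) * ((x - l) / ((1 - l) * x)) + l) := by
    have : N * (t * (l * m / ((1 - l) * x ^ 2))) ^ 2 =
      (N * t ^ 2) * (l ^ 2 * m ^ 2 / ((1 - l) ^ 2 * x ^ 4)) := by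
      field_simp
    rw [this, ← hD]
    have hm2 : m ^ 2 = ((1 - l + l ^ 2) * x - l) / (l * (1 - l)) := by
      rw [hm']; field_simp
    rw [hm2]; field_simp; ring
  have e3 : N * (t * (n / x ^ 2)) ^ 2 = ((x - 1) / x) *
      (((x - 1) / x) ^ 2 + -(1 + l) * ((x - 1) / x) + l) := by
    have : N * (t * (n / x ^ 2)) ^ 2 = (N * t ^ 2) * (n ^ 2 / x ^ 4) := by
      field_simp
    rw [this, ← hD]
    have hn2 : n ^ 2 = (1 - (1 - l) * x) / (x - l) := by
      rw [hn']; field_simp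
    rw [hn2]; field_simp; ring
  set P1 := mk hE hN x t e1 with hP1
  set P2 := mk hE hN ((x - l) / ((1 - l) * x)) (t * (l * m / ((1 - l) * x ^ 2))) e2 with hP2
  set P3 := mk hE hN ((x - 1) / x) (t * (n / x ^ 2)) e3 with hP3
  set L := logHeight₁ x with hL
  have k1 : hh N P1 = L := hh_mk _
  have k2 : |hh N P2 - L| ≤ C1 := by
    rw [hP2, hh_mk]
    have := hC1 x (by rw [add_zero]; exact mul_ne_zero h1' hx)
    rw [one_mul, add_zero, ← sub_eq_add_neg] at this
    exact this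
  have k3 : |hh N P3 - L| ≤ C2 := by
    rw [hP3, hh_mk]
    have := hC2 x (by rw [add_zero, one_mul]; exact hx)
    rw [one_mul, add_zero, ← sub_eq_add_neg] at this
    exact this
  have k12 : |hh N (P1 + P2) - hh N (P1 - P2)| ≤ C4 :=
    hC4 N t x m hN hx ht hD hm' e1 e2 hH4
  have k13 : |hh N (P1 + P3) - hh N (P1 - P3)| ≤ C3 :=
    hC3 N t x n hN hx ht hD hn' e1 e3 hH3
  have k23a : L / 2 - C5 ≤ hh N (P2 + P3) := hC5 N x _ _ hN hx e2 e3
  have k23b : L / 2 - C5 ≤ hh N (P2 - P3) := by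
    have hs : P2 - P3 = P2 + -P3 := sub_eq_add_neg _ _
    rw [hs, hP3, neg_mk]
    exact hC5 N x _ _ hN hx e2 _
  have k23c := hC0 N hN P2 P3
  have k23 : |hh N (P2 + P3) - hh N (P2 - P3)| ≤ 3 * L + 6 * K := by
    have a0 := le_abs_self C0
    have a1 := le_abs_self C1
    have a2 := le_abs_self C2
    have a5 := le_abs_self C5
    have b0 := abs_nonneg C0
    have b1 := abs_nonneg C1
    have b2 := abs_nonneg C2
    have b3 := abs_nonneg C3
    have b4 := abs_nonneg C4
    have b5 := abs_nonneg C5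
    rw [abs_le] at k2 k3 k23c ⊢
    constructor <;> linarith [k2.1, k2.2, k3.1, k3.2, k23c.1, k23c.2]
  have hb : ∀ C : ℝ, |C| ≤ K → C ≤ K := fun C h => (le_abs_self C).trans h
  have bK : ∀ C ∈ ({C0, C1, C2, C3, C4, C5} : Set ℝ), C ≤ K := by
    intro C hC
    have b0 := abs_nonneg C0
    have b1 := abs_nonneg C1
    have b2 := abs_nonneg C2
    have b3 := abs_nonneg C3
    have b4 := abs_nonneg C4
    have b5 := abs_nonneg C5
    simp only [Set.mem_insert_iff, Set.mem_singleton_iff] at hC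
    apply hb
    rcases hC with rfl | rfl | rfl | rfl | rfl | rfl <;> linarith
  have hC0K := bK C0 (by simp)
  have hC1K := bK C1 (by simp)
  have hC2K := bK C2 (by simp)
  have hC3K := bK C3 (by simp)
  have hC4K := bK C4 (by simp)
  have hK0 : 0 ≤ K := by positivity
  refine ⟨![P1, P2, P3], linInd_of_dominant (hh N) C0 (hC0 N hN) ![P1, P2, P3]
    !![0, K, K; K, 0, (3 * L + 6 * K) / 4; K, (3 * L + 6 * K) / 4, 0] ?_ ?_ ?_⟩
  · intro i j
    fin_cases i <;> fin_cases j <;> rfl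
  · intro i j hij
    have hs : ∀ P Q : (TW (-(1 + l)) l N).Point, |hh N (Q + P) - hh N (Q - P)| =
        |hh N (P + Q) - hh N (P - Q)| := by
      intro P Q
      rw [add_comm Q P, ← neg_sub P Q, hh_neg]
    fin_cases i <;> fin_cases j <;> first | exact absurd rfl hij | skip
    · simp; linarith
    · simp; linarith
    · simp only [Fin.mk_one, Fin.zero_eta, Matrix.cons_val_one, Matrix.cons_val_zero,
        Matrix.of_apply, Matrix.cons_val]
      rw [hs]; linarith
    · simp; linarith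
    · simp only [Fin.reduceFinMk, Fin.zero_eta, Matrix.cons_val_zero,
        Matrix.of_apply, Matrix.cons_val]
      rw [hs]; linarith
    · simp only [Fin.reduceFinMk, Fin.mk_one, Matrix.cons_val_one,
        Matrix.of_apply, Matrix.cons_val]
      rw [hs]; linarith
  · rw [abs_le] at k2 k3
    intro i
    rw [Finset.sum_erase_eq_sub (Finset.mem_univ i), Fin.sum_univ_three]
    fin_cases i
    · simp; rw [k1]; linarith
    · simp; linarith [k2.1, k2.2]
    · simp; linarith [k3.1, k3.2]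

end H79.Tw
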