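import Pool.Agent.helper79.Tw.Indep3

/-!
# Four independent points
-/

namespace H79.Tw

open WeierstrassCurve WeierstrassCurve.Affine H48.CN Height Iface

theorem pair_13' {s l : ℚ} (hl : l = s ^ 2) (h0 : s ≠ 0) (h1 : l ≠ 1)
    (hE : l * ((-(1 + l)) ^ 2 - 4 * l) ≠ 0) :
    ∃ C H : ℝ, ∀ (N t x r₃ : ℚ) (hN : N ≠ 0), x ≠ 0 → x ≠ 1 → t ≠ 0 →
      x * (x - 1) * (x - l) = N * t ^ 2 →
      (1 + s) ^ 2 * x - 4 * s = r₃ ^ 2 * (x - l) →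
      ∀ e₁ e₂, H < logHeight₁ x →
      |hh N (mk hE hN x t e₁ + mk hE hN (x * ((1 + s) ^ 2 * x - 4 * s) / (4 * (x - 1)))
          (t * (r₃ * ((1 + s) * x - 2) * ((1 + s) * x - 2 * s) / (8 * (x - 1) ^ 2))) e₂) -
        hh N (mk hE hN x t e₁ - mk hE hN (x * ((1 + s) ^ 2 * x - 4 * s) / (4 * (x - 1)))
          (t * (r₃ * ((1 + s) * x - 2) * ((1 + s) * x - 2 * s) / (8 * (x - 1) ^ 2))) e₂)| ≤ C := by
  subst hl
  exact pair_13 h0 h1 hE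

theorem pair_23' {s l : ℚ} (hl : l = s ^ 2) (h0 : s ≠ 0) (h1 : l ≠ 1)
    (hE : l * ((-(1 + l)) ^ 2 - 4 * l) ≠ 0) :
    ∃ C H : ℝ, ∀ (N t x r₂ r₃ : ℚ) (hN : N ≠ 0), x ≠ 0 → x ≠ 1 → t ≠ 0 →
      x * (x - 1) * (x - l) = N * t ^ 2 →
      1 - (1 - l) * x = r₂ ^ 2 * (x - l) →
      (1 + s) ^ 2 * x - 4 * s = r₃ ^ 2 * (x - l) →
      ∀ e₁ e₂, H < logHeight₁ x →
      |hh N (mk hE hN ((x - 1) / x) (t * (r₂ / x ^ 2)) e₁ +
          mk hE hN (x * ((1 + s) ^ 2 * x - 4 * s) / (4 * (x - 1)))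
          (t * (r₃ * ((1 + s) * x - 2) * ((1 + s) * x - 2 * s) / (8 * (x - 1) ^ 2))) e₂) -
        hh N (mk hE hN ((x - 1) / x) (t * (r₂ / x ^ 2)) e₁ -
          mk hE hN (x * ((1 + s) ^ 2 * x - 4 * s) / (4 * (x - 1)))
          (t * (r₃ * ((1 + s) * x - 2) * ((1 + s) * x - 2 * s) / (8 * (x - 1) ^ 2))) e₂)| ≤ C := by
  subst hl
  exact pair_23 h0 h1 hE

theorem pair_34' {s l : ℚ} (hl : l = s ^ 2) (h0 : s ≠ 0) (h1 : l ≠ 1)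
    (hE : (1 - l) ^ 2 * ((2 * (1 + l)) ^ 2 - 4 * (1 - l) ^ 2) ≠ 0) :
    ∃ C H : ℝ, ∀ (N t x r₃ r₄ : ℚ) (hN : N ≠ 0), x ≠ 0 → t ≠ 0 →
      x * (x - 1) * (x - l) = N * t ^ 2 →
      (1 + s) ^ 2 * x - 4 * s = r₃ ^ 2 * (x - l) →
      (1 - s) ^ 2 * x + 4 * s = r₄ ^ 2 * (x - l) →
      ∀ e₁ e₂, H < logHeight₁ x →
      |hh N (mk hE hN ((1 + s) ^ 2 * (x - 1)) (t * ((1 + s) ^ 2 * r₃)) e₁ +
          mk hE hN ((1 - s) ^ 2 * (x - 1)) (t * ((1 - s) ^ 2 * r₄)) e₂) -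
        hh N (mk hE hN ((1 + s) ^ 2 * (x - 1)) (t * ((1 + s) ^ 2 * r₃)) e₁ -
          mk hE hN ((1 - s) ^ 2 * (x - 1)) (t * ((1 - s) ^ 2 * r₄)) e₂)| ≤ C := by
  subst hl
  exact pair_34 h0 h1 hE

theorem isoEqn79 {A B A' B' N x y : ℚ} (hA : A' = -A / 2) (hB : B' = (A ^ 2 - 4 * B) / 16)
    (hx : x ≠ 0) (e : N * y ^ 2 = x * (x ^ 2 + A * x + B)) :
    N * (y * (x ^ 2 - B) / (8 * x ^ 2)) ^ 2 = ((x ^ 2 + A * x + B) / (4 * x)) *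
      (((x ^ 2 + A * x + B) / (4 * x)) ^ 2 + A' * ((x ^ 2 + A * x + B) / (4 * x)) + B') := by
  have h1 : N * (y * (x ^ 2 - B) / (8 * x ^ 2)) ^ 2 =
      (N * y ^ 2) * (x ^ 2 - B) ^ 2 / (64 * x ^ 4) := by
    field_simp; norm_num
  rw [h1, e, hA, hB]
  field_simp
  ring

theorem mk_eqn {l s x N t r : ℚ} (hl : l = s ^ 2) (hD : x * (x - 1) * (x - l) = N * t ^ 2)
    (hr : (1 + s) ^ 2 * x - 4 * s = r ^ 2 * (x - l)) :
    N * (t * ((1 + s) ^ 2 * r)) ^ 2 = ((1 + s) ^ 2 * (x - 1)) *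
      (((1 + s) ^ 2 * (x - 1)) ^ 2 + 2 * (1 + l) * ((1 + s) ^ 2 * (x - 1)) + (1 - l) ^ 2) := by
  have h1 : N * (t * ((1 + s) ^ 2 * r)) ^ 2 = (N * t ^ 2) * r ^ 2 * (1 + s) ^ 4 := by ring
  have h2 : ((1 + s) ^ 2 * (x - 1)) ^ 2 + 2 * (1 + l) * ((1 + s) ^ 2 * (x - 1)) + (1 - l) ^ 2 =
      (1 + s) ^ 2 * x * ((1 + s) ^ 2 * x - 4 * s) := by
    rw [hl]; ring
  rw [h1, ← hD, h2, hr]; ring

theorem phi_coord {l s x N t r : ℚ} (hl : l = s ^ 2) (hs : 1 + s ≠ 0)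
    (hE : l * ((-(1 + l)) ^ 2 - 4 * l) ≠ 0)
    (hE2 : (1 - l) ^ 2 * ((2 * (1 + l)) ^ 2 - 4 * (1 - l) ^ 2) ≠ 0) (hN : N ≠ 0) (hx1 : x ≠ 1)
    (φ : (TW (2 * (1 + l)) ((1 - l) ^ 2) N).Point →+ (TW (-(1 + l)) l N).Point)
    (hφ : ∀ (x y : ℚ) (e : N * y ^ 2 = x * (x ^ 2 + 2 * (1 + l) * x + (1 - l) ^ 2)) (_ : x ≠ 0)
        (e' : N * (y * (x ^ 2 - (1 - l) ^ 2) / (8 * x ^ 2)) ^ 2 =
          ((x ^ 2 + 2 * (1 + l) * x + (1 - l) ^ 2) / (4 * x)) *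
          (((x ^ 2 + 2 * (1 + l) * x + (1 - l) ^ 2) / (4 * x)) ^ 2 +
            -(1 + l) * ((x ^ 2 + 2 * (1 + l) * x + (1 - l) ^ 2) / (4 * x)) + l)),
        φ (mk hE2 hN x y e) =
          mk hE hN ((x ^ 2 + 2 * (1 + l) * x + (1 - l) ^ 2) / (4 * x))
            (y * (x ^ 2 - (1 - l) ^ 2) / (8 * x ^ 2)) e')
    (e : N * (t * ((1 + s) ^ 2 * r)) ^ 2 = ((1 + s) ^ 2 * (x - 1)) *
      (((1 + s) ^ 2 * (x - 1)) ^ 2 + 2 * (1 + l) * ((1 + s) ^ 2 * (x - 1)) + (1 - l) ^ 2)) :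
    ∃ e'', φ (mk hE2 hN ((1 + s) ^ 2 * (x - 1)) (t * ((1 + s) ^ 2 * r)) e) =
      mk hE hN (x * ((1 + s) ^ 2 * x - 4 * s) / (4 * (x - 1)))
        (t * (r * ((1 + s) * x - 2) * ((1 + s) * x - 2 * s) / (8 * (x - 1) ^ 2))) e'' := by
  have hx1' : x - 1 ≠ 0 := sub_ne_zero.2 hx1
  have hX : (1 + s) ^ 2 * (x - 1) ≠ 0 := mul_ne_zero (pow_ne_zero 2 hs) hx1'
  have key := hφ _ _ e hX (isoEqn79 (by ring) (by ring) hX e)
  have c1 : (((1 + s) ^ 2 * (x - 1)) ^ 2 + 2 * (1 + l) * ((1 + s) ^ 2 * (x - 1)) + (1 - l) ^ 2) /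
      (4 * ((1 + s) ^ 2 * (x - 1))) = x * ((1 + s) ^ 2 * x - 4 * s) / (4 * (x - 1)) := by
    rw [hl]; field_simp; ring
  have c2 : t * ((1 + s) ^ 2 * r) * (((1 + s) ^ 2 * (x - 1)) ^ 2 - (1 - l) ^ 2) /
      (8 * ((1 + s) ^ 2 * (x - 1)) ^ 2) =
      t * (r * ((1 + s) * x - 2) * ((1 + s) * x - 2 * s) / (8 * (x - 1) ^ 2)) := by
    rw [hl]; field_simp; ring
  have e'' : N * (t * (r * ((1 + s) * x - 2) * ((1 + s) * x - 2 * s) / (8 * (x - 1) ^ 2))) ^ 2 =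
      (x * ((1 + s) ^ 2 * x - 4 * s) / (4 * (x - 1))) *
        ((x * ((1 + s) ^ 2 * x - 4 * s) / (4 * (x - 1))) ^ 2 +
          -(1 + l) * (x * ((1 + s) ^ 2 * x - 4 * s) / (4 * (x - 1))) + l) := by
    rw [← c1, ← c2]
    exact isoEqn79 (by ring) (by ring) hX e
  exact ⟨e'', key.trans (mk_inj.2 ⟨c1, c2⟩)⟩

/-- For all but finitely many `x` the four points are independent. -/
theorem indep4 {s l : ℚ} (hl : l = s ^ 2) (h0 : s ≠ 0) (h1 : l ≠ 1) :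
    ∃ H : ℝ, ∀ N t x r₂ r₃ r₄ : ℚ, N ≠ 0 → t ≠ 0 → x * (x - 1) * (x - l) = N * t ^ 2 →
      1 - (1 - l) * x = r₂ ^ 2 * (x - l) →
      (1 + s) ^ 2 * x - 4 * s = r₃ ^ 2 * (x - l) →
      (1 - s) ^ 2 * x + 4 * s = r₄ ^ 2 * (x - l) → H < logHeight₁ x →
      ∃ P : Fin 4 → (TW (-(1 + l)) l N).Point, LinearIndependent ℤ P := by
  have hl0 : l ≠ 0 := by rw [hl]; exact pow_ne_zero 2 h0
  have hE := good_leg hl0 h1
  have h1' : 1 - l ≠ 0 := sub_ne_zero.2 (Ne.symm h1)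
  have hs1 : 1 + s ≠ 0 := by
    intro h; apply h1; rw [hl]; linear_combination (s - 1) * h
  have hs2 : 1 + -s ≠ 0 := by
    intro h; apply h1; rw [hl]; linear_combination (-s - 1) * h
  have hs0 : -s ≠ 0 := neg_ne_zero.2 h0
  have hl' : l = (-s) ^ 2 := by rw [hl]; ring
  have hE2 : (1 - l) ^ 2 * ((2 * (1 + l)) ^ 2 - 4 * (1 - l) ^ 2) ≠ 0 := by
    have : (2 * (1 + l)) ^ 2 - 4 * (1 - l) ^ 2 = 16 * l := by ring
    rw [this]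
    exact mul_ne_zero (pow_ne_zero 2 h1') (mul_ne_zero (by norm_num) hl0)
  obtain ⟨C0, hC0⟩ := parallelogram hE
  obtain ⟨C1, hC1⟩ := height_mobius (a := 1) (b := -1) (c := 1) (d := 0) (by norm_num)
  obtain ⟨C2, H2, hC2⟩ := pair_rot hl0 h1 hE
  obtain ⟨C3, H3, hC3⟩ := pair_13' hl h0 h1 hE
  obtain ⟨C4, H4, hC4⟩ := pair_13' hl' hs0 h1 hE
  obtain ⟨C5, H5, hC5⟩ := pair_23' hl h0 h1 hE
  obtain ⟨C6, H6, hC6⟩ := pair_23' hl' hs0 h1 hE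
  obtain ⟨C7, H7, hC7⟩ := pair_34' hl h0 h1 hE2
  obtain ⟨C8, hC8⟩ := exists_iso (A := 2 * (1 + l)) (B := (1 - l) ^ 2) (A' := -(1 + l)) (B' := l)
    (by ring) (by ring) hE2 hE
  obtain ⟨C9, hC9⟩ := height_mobius (a := (1 + s) ^ 2) (b := -(1 + s) ^ 2) (c := 0) (d := 1)
    (by rw [mul_one, mul_zero, sub_zero]; exact pow_ne_zero 2 hs1)
  obtain ⟨C10, hC10⟩ := height_mobius (a := (1 - s) ^ 2) (b := -(1 - s) ^ 2) (c := 0) (d := 1)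
    (by rw [mul_one, mul_zero, sub_zero]; exact pow_ne_zero 2 (by rw [sub_eq_add_neg]; exact hs2))
  set K : ℝ := |C0| + |C1| + |C2| + |C3| + |C4| + |C5| + |C6| + |C7| + |C8| + |C9| + |C10| with hK
  refine ⟨H2 ⊔ H3 ⊔ H4 ⊔ H5 ⊔ H6 ⊔ H7 ⊔ (100 * K + 100), ?_⟩
  intro N t x r₂ r₃ r₄ hN ht hD hr₂ hr₃ hr₄ hH
  simp only [sup_lt_iff] at hH
  obtain ⟨⟨⟨⟨⟨⟨hH2, hH3⟩, hH4⟩, hH5⟩, hH6⟩, hH7⟩, hHK⟩ := hH
  have hNt : N * t ^ 2 ≠ 0 := mul_ne_zero hN (pow_ne_zero 2 ht)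
  rw [← hD] at hNt
  have hx : x ≠ 0 := by rintro rfl; simp at hNt
  have hx1 : x ≠ 1 := by rintro rfl; simp at hNt
  have hxl : x - l ≠ 0 := by intro h; rw [h] at hNt; simp at hNt
  obtain ⟨φ, hφ1, hφ2⟩ := hC8 N hN
  have e1 : N * t ^ 2 = x * (x ^ 2 + -(1 + l) * x + l) := by rw [← hD]; ring
  have e2 : N * (t * (r₂ / x ^ 2)) ^ 2 = ((x - 1) / x) *
      (((x - 1) / x) ^ 2 + -(1 + l) * ((x - 1) / x) + l) := by
    have : N * (t * (r₂ / x ^ 2)) ^ 2 = (N * t ^ 2) * (r₂ ^ 2 / x ^ 4) := by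
      field_simp
    rw [this, ← hD]
    have hn2 : r₂ ^ 2 = (1 - (1 - l) * x) / (x - l) := by
      rw [hr₂]; field_simp
    rw [hn2]; field_simp; ring
  have hr₄' : (1 + -s) ^ 2 * x - 4 * -s = r₄ ^ 2 * (x - l) := by rw [← hr₄]; ring
  have q3 := mk_eqn hl hD hr₃
  have q4 := mk_eqn hl' hD hr₄'
  have q4' : N * (t * ((1 - s) ^ 2 * r₄)) ^ 2 = ((1 - s) ^ 2 * (x - 1)) *
      (((1 - s) ^ 2 * (x - 1)) ^ 2 + 2 * (1 + l) * ((1 - s) ^ 2 * (x - 1)) + (1 - l) ^ 2) := by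
    have h : 1 - s = 1 + -s := by ring
    rw [h]; exact q4
  obtain ⟨f3, hf3⟩ := phi_coord hl hs1 hE hE2 hN hx1 φ hφ2 q3
  obtain ⟨f4, hf4⟩ := phi_coord hl' hs2 hE hE2 hN hx1 φ hφ2 q4
  have hq4 : mk hE2 hN ((1 + -s) ^ 2 * (x - 1)) (t * ((1 + -s) ^ 2 * r₄)) q4 =
      mk hE2 hN ((1 - s) ^ 2 * (x - 1)) (t * ((1 - s) ^ 2 * r₄)) q4' :=
    mk_inj.2 ⟨by ring, by ring⟩
  rw [hq4] at hf4
  set L := logHeight₁ x with hL
  have k12 := hC2 N t x r₂ hN hx ht hD hr₂ e1 e2 hH2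
  have k13 := hC3 N t x r₃ hN hx hx1 ht hD hr₃ e1 f3 hH3
  have k14 := hC4 N t x r₄ hN hx hx1 ht hD hr₄' e1 f4 hH4
  have k23 := hC5 N t x r₂ r₃ hN hx hx1 ht hD hr₂ hr₃ e2 f3 hH5
  have k24 := hC6 N t x r₂ r₄ hN hx hx1 ht hD hr₂ hr₄' e2 f4 hH6
  have k34 := hC7 N t x r₃ r₄ hN hx ht hD hr₃ hr₄ q3 q4' hH7
  have n3 : |hh N (mk hE2 hN _ _ q3) - L| ≤ C9 := by
    rw [hh_mk]
    have := hC9 x (by norm_num)
    have h : ((1 + s) ^ 2 * x + -(1 + s) ^ 2) / (0 * x + 1) = (1 + s) ^ 2 * (x - 1) := by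
      rw [zero_mul, zero_add, div_one]; ring
    rw [h] at this
    exact this
  have n4 : |hh N (mk hE2 hN _ _ q4') - L| ≤ C10 := by
    rw [hh_mk]
    have := hC10 x (by norm_num)
    have h : ((1 - s) ^ 2 * x + -(1 - s) ^ 2) / (0 * x + 1) = (1 - s) ^ 2 * (x - 1) := by
      rw [zero_mul, zero_add, div_one]; ring
    rw [h] at this
    exact this
  have n2 : |hh N (mk hE hN _ _ e2) - L| ≤ C1 := by
    rw [hh_mk]
    have := hC1 x (by rw [add_zero, one_mul]; exact hx)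
    rw [one_mul, add_zero, ← sub_eq_add_neg] at this
    exact this
  have n1 : hh N (mk hE hN x t e1) = L := hh_mk _
  have m3 := hφ1 (mk hE2 hN _ _ q3)
  have m4 := hφ1 (mk hE2 hN _ _ q4')
  have m34 := hφ1 (mk hE2 hN _ _ q3 + mk hE2 hN _ _ q4')
  have m34' := hφ1 (mk hE2 hN _ _ q3 - mk hE2 hN _ _ q4')
  rw [map_add, hf3, hf4] at m34
  rw [map_sub, hf3, hf4] at m34'
  rw [hf3] at m3
  rw [hf4] at m4
  generalize hP1 : mk hE hN x t e1 = P1 at *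
  generalize hP2 : mk hE hN ((x - 1) / x) (t * (r₂ / x ^ 2)) e2 = P2 at *
  generalize mk hE hN (x * ((1 + s) ^ 2 * x - 4 * s) / (4 * (x - 1)))
    (t * (r₃ * ((1 + s) * x - 2) * ((1 + s) * x - 2 * s) / (8 * (x - 1) ^ 2))) f3 = P3 at *
  generalize mk hE hN (x * ((1 + -s) ^ 2 * x - 4 * -s) / (4 * (x - 1)))
    (t * (r₄ * ((1 + -s) * x - 2) * ((1 + -s) * x - 2 * -s) / (8 * (x - 1) ^ 2))) f4 = P4 at *
  have c0 := abs_nonneg C0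
  have c1 := abs_nonneg C1
  have c2 := abs_nonneg C2
  have c3 := abs_nonneg C3
  have c4 := abs_nonneg C4
  have c5 := abs_nonneg C5
  have c6 := abs_nonneg C6
  have c7 := abs_nonneg C7
  have c8 := abs_nonneg C8
  have c9 := abs_nonneg C9
  have c10 := abs_nonneg C10
  have d0 := le_abs_self C0
  have d1 := le_abs_self C1
  have d2 := le_abs_self C2
  have d3 := le_abs_self C3
  have d4 := le_abs_self C4
  have d5 := le_abs_self C5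
  have d6 := le_abs_self C6
  have d7 := le_abs_self C7
  have d8 := le_abs_self C8
  have d9 := le_abs_self C9
  have d10 := le_abs_self C10
  have k34' : |hh N (P3 + P4) - hh N (P3 - P4)| ≤ 4 * K := by
    rw [abs_le] at m34 m34' k34 ⊢
    constructor <;> linarith [m34.1, m34.2, m34'.1, m34'.2, k34.1, k34.2]
  have g3 : L - 3 * K ≤ hh N P3 := by
    rw [abs_le] at m3 n3
    linarith [m3.1, n3.1]
  have g4 : L - 3 * K ≤ hh N P4 := by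
    rw [abs_le] at m4 n4
    linarith [m4.1, n4.1]
  have g2 : L - 3 * K ≤ hh N P2 := by
    rw [abs_le] at n2
    linarith [n2.1]
  have hC0K : C0 ≤ K := by linarith
  have hs : ∀ P Q : (TW (-(1 + l)) l N).Point, |hh N (Q + P) - hh N (Q - P)| =
      |hh N (P + Q) - hh N (P - Q)| := by
    intro P Q
    rw [add_comm Q P, ← neg_sub P Q, hh_neg]
  refine ⟨![P1, P2, P3, P4], linInd_of_dominant (hh N) C0 (hC0 N hN) ![P1, P2, P3, P4]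
    (fun _ _ => K) (fun _ _ => rfl) ?_ ?_⟩
  · intro i j hij
    fin_cases i <;> fin_cases j <;> first | exact absurd rfl hij | skip
    · change |hh N (P1 + P2) - hh N (P1 - P2)| ≤ 4 * K; linarith
    · change |hh N (P1 + P3) - hh N (P1 - P3)| ≤ 4 * K; linarith
    · change |hh N (P1 + P4) - hh N (P1 - P4)| ≤ 4 * K; linarith
    · change |hh N (P2 + P1) - hh N (P2 - P1)| ≤ 4 * K; rw [hs]; linarith
    · change |hh N (P2 + P3) - hh N (P2 - P3)| ≤ 4 * K; linarith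
    · change |hh N (P2 + P4) - hh N (P2 - P4)| ≤ 4 * K; linarith
    · change |hh N (P3 + P1) - hh N (P3 - P1)| ≤ 4 * K; rw [hs]; linarith
    · change |hh N (P3 + P2) - hh N (P3 - P2)| ≤ 4 * K; rw [hs]; linarith
    · change |hh N (P3 + P4) - hh N (P3 - P4)| ≤ 4 * K; linarith
    · change |hh N (P4 + P1) - hh N (P4 - P1)| ≤ 4 * K; rw [hs]; linarith
    · change |hh N (P4 + P2) - hh N (P4 - P2)| ≤ 4 * K; rw [hs]; linarith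
    · change |hh N (P4 + P3) - hh N (P4 - P3)| ≤ 4 * K; rw [hs]; linarith
  · intro i
    rw [Finset.sum_erase_eq_sub (Finset.mem_univ i)]
    simp only [Finset.sum_const, Finset.card_univ, Fintype.card_fin]
    fin_cases i
    · change 4 • (K + C0) - (K + C0) + C0 < hh N P1
      rw [n1]; simp only [nsmul_eq_mul]; push_cast; linarith
    · change 4 • (K + C0) - (K + C0) + C0 < hh N P2
      simp only [nsmul_eq_mul]; push_cast; linarith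
    · change 4 • (K + C0) - (K + C0) + C0 < hh N P3
      simp only [nsmul_eq_mul]; push_cast; linarith
    · change 4 • (K + C0) - (K + C0) + C0 < hh N P4
      simp only [nsmul_eq_mul]; push_cast; linarith

end H79.Tw
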