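import Pool.Agent.helper78.Tw.A
import Pool.Agent.helper78.Tw.C
import Pool.Agent.helper38.Tw.B
import Pool.Agent.helper45.Tw.D
import Pool.Agent.helper59.Tw.Arc
import Pool.Agent.helper17.Tw.Engine
import Pool.Agent.helper53.Tw.G
import Pool.Agent.helper53.Tw.H
import Pool.Agent.helper19.Tw.I
import Pool.Agent.helper33.Tw.J
import Pool.Agent.helper25.Tw.K
import Pool.Agent.helper4.Tw.L
import Pool.Agent.helper4.Tw.M
import Pool.Agent.helper79.Tw.Defs
import Pool.Agent.H48.CN.Main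

/-! The modules used in the proof, under common names. -/

namespace H79.Tw.Iface

open WeierstrassCurve WeierstrassCurve.Affine H48.CN H79.Tw Height

export H78.Tw (height_rat_le height_mobius height_quad height_root_le linInd_of_dominant)
export Pool.Agent.helper38.Tw (parallelogram)
export Pool.Agent.helper45.Tw (inf_of_pv)
export H53.Tw (pair_rot pair_M2 sum_ge)
export H33.TwJ (pair_34 pair_13 pair_23)
export H25.Tw (transport)
export H4.Tw (a3 b3 base3 a4 b4 c41 c42 c43 base4)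

theorem engine {α β δ : ℚ} (hα : 0 < α) (hβ : 0 < β) (hδ : 0 < δ) (hδβ : δ < β) {x0 y0 : ℚ}
    (h0 : (Wc (β - α) (-(α * β)) 0).Nonsingular x0 y0) (hx0 : x0 < 0)
    (hinf : ∀ k : ℕ, 0 < k → k • (Point.some x0 y0 h0 : (Wc (β - α) (-(α * β)) 0).Point) ≠ 0)
    (f : Polynomial ℚ) (hf0 : f.eval x0 ≠ 0) (hfδ : f.eval (-δ) = 0)
    (hpos : ∀ x : ℚ, -β ≤ x → x < -δ → 0 < f.eval x)
    (hneg : ∀ x : ℚ, -δ < x → x < 0 → f.eval x < 0)
    (S : Set ℤ) (F : Set ℚ) (hF : F.Finite)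
    (hS : ∀ (k : ℕ) (x y : ℚ) (h : (Wc (β - α) (-(α * β)) 0).Nonsingular x y),
      (2 * k + 1) • (Point.some x0 y0 h0 : (Wc (β - α) (-(α * β)) 0).Point) = Point.some x y h →
      x ∉ F → ∃ N ∈ S, ∃ t : ℚ, t ≠ 0 ∧ N ≠ 0 ∧ f.eval x = N * t ^ 2) :
    S.Infinite :=
  H17.Tw.engine_of hα hβ
    (fun P Q hQ H => Pool.Agent.helper59.Tw.no_arc_left hα hβ hδ P Q hQ H)
    (fun P Q hQ H => Pool.Agent.helper59.Tw.no_arc_right hα hβ hδ hδβ P Q hQ H)
    h0 hx0 hinf f hf0 hfδ hpos hneg S F hF hS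

end H79.Tw.Iface
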